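import Pool.Agent.H.MP_0fb7ac_an.Main

namespace Pool.Agent.Results.MP_0fb7ac_an.No

open MeasureTheory Set

noncomputable def lap (u : ℝ × ℝ → ℝ) (p : ℝ × ℝ) : ℝ :=
  deriv (fun s => deriv (fun t => u (t, p.2)) s) p.1
    + deriv (fun s => deriv (fun t => u (p.1, t)) s) p.2

noncomputable def speed (u : ℝ × ℝ → ℝ) (γ : ℝ → ℝ × ℝ) (t : ℝ) : ℝ :=
  Real.exp (u (γ t)) * √((deriv γ t).1 ^ 2 + (deriv γ t).2 ^ 2)

theorem result (L : ℝ) (hL : L < 2 * Real.pi) : ∃ u : ℝ × ℝ → ℝ, ContDiff ℝ 2 u ∧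
    (∀ p, lap u p + Real.exp (2 * u p) ≤ 0) ∧ Integrable (fun p => Real.exp (2 * u p)) ∧
    ∃ p q : ℝ × ℝ, ∀ (γ : ℝ → ℝ × ℝ) (S : Set ℝ), S.Countable → ContinuousOn γ (Icc 0 1) →
      γ 0 = p → γ 1 = q → (∀ t ∈ Ioo (0 : ℝ) 1 \ S, DifferentiableAt ℝ γ t) →
      IntervalIntegrable (speed u γ) volume 0 1 → L ≤ ∫ t in (0 : ℝ)..1, speed u γ t :=
  Pool.Agent.H.MP_0fb7ac_an.main L hL

end Pool.Agent.Results.MP_0fb7ac_an.No
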